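import Pool.Agent.N922.PY.Stm

/-!
# Project PY, part FINA (helper803): the shape of `F`
-/

set_option autoImplicit false

open Polynomial

namespace Pool.Agent.N803.PY

open Pool.Agent.N922.PY

/-- a square root of `4 ^ j` times a unit -/
theorem sqrt_unit (x w : ℤ_[2]) (j : ℕ) (hw : IsUnit w) (h : x ^ 2 = 2 ^ (2 * j) * w) :
    ∃ η : ℤ_[2], IsUnit η ∧ x = 2 ^ j * η := by
  have hw1 : ‖w‖ = 1 := PadicInt.isUnit_iff.1 hw
  have h1 : ‖x‖ ^ 2 = (‖(2 : ℤ_[2]) ^ j‖) ^ 2 := by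
    rw [← norm_pow, h, norm_mul, hw1, mul_one, mul_comm 2 j, pow_mul, norm_pow]
  have h2 : ‖x‖ = ‖(2 : ℤ_[2]) ^ j‖ := (sq_eq_sq₀ (norm_nonneg _) (norm_nonneg _)).1 h1
  have h20 : ((2 : ℤ_[2]) ^ j) ≠ 0 := pow_ne_zero _ (by norm_num)
  have h21 : ‖(2 : ℤ_[2]) ^ j‖ ≠ 0 := norm_ne_zero_iff.2 h20
  have h3 : ‖(x : ℚ_[2]) / (2 : ℚ_[2]) ^ j‖ = 1 := by
    have e1 : ‖(x : ℚ_[2])‖ = ‖x‖ := rfl
    have e2 : ‖(2 : ℚ_[2]) ^ j‖ = ‖(2 : ℤ_[2]) ^ j‖ := by
      rw [PadicInt.norm_def]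
      congr 1
    rw [norm_div, e1, e2, h2]
    exact div_self h21
  refine ⟨⟨(x : ℚ_[2]) / (2 : ℚ_[2]) ^ j, h3.le⟩, PadicInt.isUnit_iff.2 h3, ?_⟩
  apply Subtype.ext
  have h4 : (2 : ℚ_[2]) ^ j ≠ 0 := pow_ne_zero _ (by norm_num)
  have e5 : (((2 : ℤ_[2]) ^ j : ℤ_[2]) : ℚ_[2]) = (2 : ℚ_[2]) ^ j := by
    push_cast
    rfl
  show (x : ℚ_[2]) = (((2 : ℤ_[2]) ^ j : ℤ_[2]) : ℚ_[2]) * ((x : ℚ_[2]) / (2 : ℚ_[2]) ^ j)
  rw [e5]
  field_simp

theorem fina : S_FINA := by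
  intro f hf hf5 U j z γ ε F hU hj hγ hε hz hN
  obtain ⟨a, ha⟩ : ∃ a : ℤ_[2][X], a = F.re := ⟨_, rfl⟩
  obtain ⟨b, hb⟩ : ∃ b : ℤ_[2][X], b = F.im := ⟨_, rfl⟩
  have hN' : a ^ 2 - f * b ^ 2 = C γ * U ^ 2 ^ (j + 1) * (1 - C z * X) := by
    rw [← hN, QuadraticAlgebra.norm_def, ha, hb]
    ring
  rw [← ha, ← hb]
  have hz0 : z ≠ 0 := by
    rw [hz]
    exact mul_ne_zero (pow_ne_zero _ (by norm_num)) hε.ne_zero
  -- the right side
  have hl : (1 - C z * X : ℤ_[2][X]).natDegree = 1 := by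
    have : (1 - C z * X : ℤ_[2][X]) = C (-z) * X + C 1 := by
      rw [C_neg, C_1]
      ring
    rw [this]
    exact natDegree_linear (neg_ne_zero.2 hz0)
  have hll : (1 - C z * X : ℤ_[2][X]).leadingCoeff = -z := by
    have : (1 - C z * X : ℤ_[2][X]) = C (-z) * X + C 1 := by
      rw [C_neg, C_1]
      ring
    rw [this]
    exact leadingCoeff_linear (neg_ne_zero.2 hz0)
  have hUn : (U ^ 2 ^ (j + 1)).Monic := hU.pow _
  obtain ⟨R, hR⟩ : ∃ R : ℤ_[2][X], R = C γ * U ^ 2 ^ (j + 1) * (1 - C z * X) := ⟨_, rfl⟩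
  have hl0 : (1 - C z * X : ℤ_[2][X]) ≠ 0 := by
    intro h
    rw [h, natDegree_zero] at hl
    omega
  have hRd : R.natDegree = 2 ^ (j + 1) * U.natDegree + 1 := by
    rw [hR, natDegree_mul (mul_ne_zero (C_ne_zero.2 hγ.ne_zero) hUn.ne_zero) hl0,
      natDegree_C_mul hγ.ne_zero, natDegree_pow, hl]
  have hRl : R.leadingCoeff = -(γ * z) := by
    rw [hR, leadingCoeff_mul, leadingCoeff_mul, leadingCoeff_C, hUn.leadingCoeff, hll]
    ring
  rw [← hR] at hN'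
  have hodd : ∃ k, 2 ^ (j + 1) * U.natDegree = 2 * k := ⟨2 ^ j * U.natDegree, by rw [pow_succ]; ring⟩
  obtain ⟨k, hk⟩ := hodd
  rw [hk] at hRd ⊢
  have hf0 : f ≠ 0 := hf.ne_zero
  -- `b` is not zero
  have hb0 : b ≠ 0 := by
    intro h
    rw [h] at hN'
    have h1 : R = a ^ 2 := by rw [← hN']; ring
    rw [h1, natDegree_pow] at hRd
    omega
  have hfb : (f * b ^ 2).natDegree = 2 * b.natDegree + 5 := by
    rw [natDegree_mul hf0 (pow_ne_zero _ hb0), hf5, natDegree_pow]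
    ring
  have haa : (a ^ 2).natDegree = 2 * a.natDegree := natDegree_pow _ _
  have hlt : 2 * a.natDegree < 2 * b.natDegree + 5 := by
    by_contra hcon
    have h1 : (f * b ^ 2).natDegree < (a ^ 2).natDegree := by rw [hfb, haa]; omega
    have h2 : (a ^ 2 - f * b ^ 2).natDegree = (a ^ 2).natDegree := natDegree_sub_eq_left_of_natDegree_lt h1
    rw [hN', hRd, haa] at h2
    omega
  have h1 : (a ^ 2).natDegree < (f * b ^ 2).natDegree := by rw [hfb, haa]; omega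
  have h2 : (a ^ 2 - f * b ^ 2).natDegree = (f * b ^ 2).natDegree := natDegree_sub_eq_right_of_natDegree_lt h1
  have hdeg : 2 * b.natDegree + 5 = 2 * k + 1 := by
    rw [hN', hRd, hfb] at h2
    omega
  have hlc : b.leadingCoeff ^ 2 = γ * z := by
    have h3 : (a ^ 2 - f * b ^ 2).leadingCoeff = -(f * b ^ 2).leadingCoeff := by
      rw [sub_eq_add_neg, leadingCoeff_add_of_degree_lt, leadingCoeff_neg]
      rw [degree_neg]
      exact degree_lt_degree h1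
    rw [hN', hRl, leadingCoeff_mul, hf.leadingCoeff, one_mul, leadingCoeff_pow] at h3
    exact (neg_injective h3).symm
  refine ⟨hdeg, by omega, ?_, ?_⟩
  · refine sqrt_unit _ (γ * ε) j (hγ.mul hε) ?_
    rw [hlc, hz]
    ring
  · -- modulo two
    have hγ1 : PadicInt.toZMod (p := 2) γ = 1 := by
      have h3 : IsUnit (PadicInt.toZMod (p := 2) γ) := hγ.map _
      have h4 : ∀ u : ZMod 2, u ≠ 0 → u = 1 := by decide
      exact h4 _ h3.ne_zero
    have hz2 : PadicInt.toZMod (p := 2) z = 0 := by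
      have h3 : (2 : ZMod 2) = 0 := by decide
      rw [hz, map_mul, map_pow, map_ofNat]
      show (2 : ZMod 2) ^ (2 * j) * _ = 0
      rw [h3, zero_pow (by omega), zero_mul]
    obtain ⟨A, hA⟩ : ∃ A : (ZMod 2)[X], A = r2 a := ⟨_, rfl⟩
    obtain ⟨B, hB⟩ : ∃ B : (ZMod 2)[X], B = r2 b := ⟨_, rfl⟩
    obtain ⟨V, hV⟩ : ∃ V : (ZMod 2)[X], V = r2 U ^ 2 ^ j := ⟨_, rfl⟩
    rw [← hA, ← hB, ← hV]
    have hmod : A ^ 2 - r2 f * B ^ 2 = V ^ 2 := by
      have h3 := congrArg (Polynomial.map (PadicInt.toZMod (p := 2))) (hN'.trans hR)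
      simp only [Polynomial.map_sub, Polynomial.map_mul, Polynomial.map_pow, map_C, map_X,
        Polynomial.map_one, hγ1, hz2, C_1, C_0, zero_mul, sub_zero, one_mul, mul_one] at h3
      rw [hA, hB, hV, ← pow_mul, ← pow_succ]
      exact h3
    have h22 : (2 : (ZMod 2)[X]) = 0 := by
      have h3 : (2 : ZMod 2) = 0 := by decide
      have h4 : (2 : (ZMod 2)[X]) = C (2 : ZMod 2) := (map_ofNat C 2).symm
      rw [h4, h3, C_0]
    have hsq : (A - V) ^ 2 = r2 f * B ^ 2 := by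
      have h3 : A ^ 2 = V ^ 2 + r2 f * B ^ 2 := by rw [← hmod]; ring
      calc (A - V) ^ 2 = A ^ 2 + V ^ 2 - 2 * (A * V) := by ring
        _ = (V ^ 2 + r2 f * B ^ 2) + V ^ 2 - 2 * (A * V) := by rw [h3]
        _ = r2 f * B ^ 2 + 2 * (V ^ 2 - A * V) := by ring
        _ = r2 f * B ^ 2 := by rw [h22, zero_mul, add_zero]
    have hfm : (r2 f).Monic := hf.map _
    have hB0 : B = 0 := by
      by_contra hne
      have h3 : ((A - V) ^ 2).natDegree = 2 * (A - V).natDegree := natDegree_pow _ _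
      have h4 : (r2 f * B ^ 2).natDegree = 5 + 2 * B.natDegree := by
        rw [natDegree_mul hfm.ne_zero (pow_ne_zero _ hne), hf.natDegree_map, hf5, natDegree_pow]
      rw [hsq, h4] at h3
      omega
    refine ⟨?_, hB0⟩
    rw [hB0] at hsq
    have h3 : (A - V) ^ 2 = 0 := by rw [hsq]; ring
    exact sub_eq_zero.1 ((pow_eq_zero_iff (two_ne_zero)).1 h3)

end Pool.Agent.N803.PY
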